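import Mathlib
import Pool.Agent.Q205.RP.Verify2

/-!
# Wiggin's maps after a finite verification

`F D` is Wiggin's map and `T D` its shortened form, which performs the division by `D` that follows
every multiplication. For `ω : ℤ → {0, …, D-1}` let `U n = T D (n + ω n)` (`ω = 0` gives `T D`).
Suppose that all `n ≤ N` descend below `D` under `U g`, inside a finite set `S` of places (for
`g = 0`: the verification of the conjecture for `D` up to `N`). Among all `ω` that agree with `g`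
on `S` the proportion of those for which some `n ≥ 1` never descends below `D` is at most
`exp (- exp (c √(log N)))`.
-/

set_option autoImplicit false

open MeasureTheory Finset

namespace Pool.Agent.Results.MP_5317dd_nt.DescentAfterVerification

/-- The shortened Wiggin map: `x / D` if `D` divides `x`, otherwise `((D+1) x - j) / D` for
`x ≡ j`, `1 ≤ j ≤ D - 2`, and `((D+1) x + 1) / D` for `x ≡ -1 (mod D)`. -/
def T (D : ℕ) (x : ℤ) : ℤ :=
  if x % D = 0 then x / D
  else if x % D = D - 1 then ((D + 1) * x + 1) / D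
  else ((D + 1) * x - x % D) / D

/-- The perturbed map: the argument `x` is replaced by `x + ω x`. -/
def U (D : ℕ) (ω : ℤ → Fin D) (x : ℤ) : ℤ := T D (x + ((ω x : ℕ) : ℤ))

/-- The law of independent uniform choices from `{0, …, D-1}`, one for each integer. -/
noncomputable def noise (D : ℕ) [NeZero D] : Measure (ℤ → Fin D) :=
  Measure.infinitePi (fun _ : ℤ => (PMF.uniformOfFintype (Fin D)).toMeasure)

/-- Every positive integer has an iterate below `D`. -/
def AllDescend (D : ℕ) (f : ℤ → ℤ) : Prop := ∀ n : ℤ, 1 ≤ n → ∃ k : ℕ, f^[k] n < D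

/-- multipliers -/
def mult (D : ℕ) [NeZero D] (i : Fin D) : ℤ := if i = 0 then 1 else D + 1

/-- remainders -/
def rem (D : ℕ) [NeZero D] (i : Fin D) : ℤ :=
  if i = 0 then 0 else if ((i : ℕ) : ℤ) = D - 1 then -1 else ((i : ℕ) : ℤ)

theorem T_eq (D : ℕ) [NeZero D] (x : ℤ) : T D x = Q205.RP.gc (mult D) (rem D) x := by
  have h := Q205.RP.res_cast (d := D) x
  unfold T Q205.RP.gc mult rem
  by_cases h0 : x % (D : ℤ) = 0
  · have h1 : Q205.RP.res D x = 0 := by
      apply Fin.ext
      rw [h0] at h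
      simp only [Fin.val_zero]
      exact_mod_cast h
    rw [if_pos h0, if_pos h1, if_pos h1]
    simp
  · have h1 : Q205.RP.res D x ≠ 0 := by
      intro h2
      rw [h2] at h
      simp only [Fin.val_zero, Nat.cast_zero] at h
      exact h0 h.symm
    rw [if_neg h0, if_neg h1, if_neg h1]
    by_cases h2 : x % (D : ℤ) = D - 1
    · rw [if_pos h2, if_pos (by rw [h]; exact h2)]
      ring_nf
    · rw [if_neg h2, if_neg (by rw [h]; exact h2), h]

theorem dvd_rem (D : ℕ) [NeZero D] (i : Fin D) :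
    (D : ℤ) ∣ mult D i * ((i : ℕ) : ℤ) - rem D i := by
  unfold mult rem
  split_ifs with h1 h2
  · subst h1
    simp
  · rw [h2]
    exact ⟨D, by ring⟩
  · exact ⟨((i : ℕ) : ℤ), by ring⟩

theorem prod_mult (D : ℕ) [NeZero D] :
    ∏ i, |((mult D i : ℤ) : ℝ)| = ((D : ℝ) + 1) ^ (D - 1) := by
  have h1 : ∀ i : Fin D, |((mult D i : ℤ) : ℝ)| = if i = 0 then (1 : ℝ) else (D : ℝ) + 1 := by
    intro i
    unfold mult
    split_ifs
    · simp
    · push_cast
      exact abs_of_nonneg (by positivity)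
  rw [Finset.prod_congr rfl (fun i _ => h1 i)]
  rw [← Finset.mul_prod_erase univ _ (mem_univ (0 : Fin D)), if_pos rfl, one_mul]
  rw [Finset.prod_congr rfl (fun i hi => if_neg (Finset.ne_of_mem_erase hi)), Finset.prod_const,
    Finset.card_erase_of_mem (mem_univ _), card_univ, Fintype.card_fin]

/-- the maps are contracting on average -/
theorem contracting (D : ℕ) (hD : 2 ≤ D) : ((D : ℝ) + 1) ^ (D - 1) < (D : ℝ) ^ D := by
  have hD0 : (0 : ℝ) < D := by exact_mod_cast (show 0 < D by omega)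
  obtain ⟨e, rfl⟩ : ∃ e, D = e + 1 := ⟨D - 1, by omega⟩
  rw [Nat.add_sub_cancel]
  have he : 1 ≤ e := by omega
  -- `(1 + 1/(e+1))^e < e + 1`
  have h1 : ((((e + 1 : ℕ) : ℝ) + 1) / ((e + 1 : ℕ) : ℝ)) ^ e < ((e + 1 : ℕ) : ℝ) := by
    rcases Nat.lt_or_ge e 2 with h2 | h2
    · have : e = 1 := by omega
      subst this
      norm_num
    · have h3 : ((((e + 1 : ℕ) : ℝ) + 1) / ((e + 1 : ℕ) : ℝ)) =
          1 + 1 / ((e + 1 : ℕ) : ℝ) := by
        field_simp
      have h4 : (1 + 1 / ((e + 1 : ℕ) : ℝ)) ^ e ≤ Real.exp 1 := by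
        have h5 : 1 + 1 / ((e + 1 : ℕ) : ℝ) ≤ Real.exp (1 / ((e + 1 : ℕ) : ℝ)) := by
          have := Real.add_one_le_exp (1 / ((e + 1 : ℕ) : ℝ))
          linarith
        calc (1 + 1 / ((e + 1 : ℕ) : ℝ)) ^ e ≤ Real.exp (1 / ((e + 1 : ℕ) : ℝ)) ^ e :=
              pow_le_pow_left₀ (by positivity) h5 e
          _ = Real.exp (e * (1 / ((e + 1 : ℕ) : ℝ))) := by rw [← Real.exp_nat_mul]
          _ ≤ Real.exp 1 := by
              apply Real.exp_le_exp.2
              rw [mul_one_div, div_le_one (by positivity)]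
              push_cast
              linarith
      have h6 := Real.exp_one_lt_d9
      have h7 : (3 : ℝ) ≤ ((e + 1 : ℕ) : ℝ) := by exact_mod_cast (show 3 ≤ e + 1 by omega)
      rw [h3]
      linarith
  rw [div_pow, div_lt_iff₀ (by positivity)] at h1
  rw [pow_succ]
  linarith

theorem result (D : ℕ) [NeZero D] (hD : 2 ≤ D) : (∃ c : ℝ, 0 < c ∧ ∃ N₀ : ℕ, ∀ N : ℕ, N₀ ≤ N →
    ∀ (S : Finset ℤ) (g : ℤ → Fin D),
    (∀ n : ℤ, 1 ≤ n → n ≤ N → n ∈ S) → (∀ n ∈ S, U D g n ∈ S) →
    (∀ n ∈ S, ∃ k : ℕ, (U D g)^[k] n < D) →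
    noise D {ω | (∀ n ∈ S, ω n = g n) ∧ ¬ AllDescend D (U D ω)} ≤
      ENNReal.ofReal (Real.exp (-Real.exp (c * Real.sqrt (Real.log N)))) *
        noise D {ω | ∀ n ∈ S, ω n = g n}) ∧
    0 < noise D {ω | AllDescend D (U D ω)} := by
  have hG : Q205.RP.Lin (fun (x : ℤ) (c : Fin D) => T D (x + ((c : ℕ) : ℤ))) D (mult D)
      (Q205.RP.RR (mult D) (rem D)) := by
    simp only [T_eq]
    exact Q205.RP.lin_gc _ _ (dvd_rem D)
  have hcop : Nat.Coprime D (D + 1) := by simp
  obtain ⟨c, hc, N₀, h⟩ := Q205.RP.main_verify (q := D + 1) (E := 1) _ hD (by omega) hcop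
    (fun i => by
      unfold mult
      split_ifs
      · exact ⟨0, by norm_num, by simp⟩
      · exact ⟨1, by norm_num, by simp⟩) (Q205.RP.RR_ge _ _) hG (by
      rw [prod_mult]
      exact contracting D hD)
  have hU : ∀ ω, Q205.RP.Tn (fun (x : ℤ) (c : Fin D) => T D (x + ((c : ℕ) : ℤ))) ω = U D ω :=
    fun ω => rfl
  have hD0 : (0 : ℤ) < D := by omega
  -- positive integers stay positive
  have hpos : ∀ y : ℤ, 1 ≤ y → 1 ≤ T D y := by
    intro y hy
    have hm0 := Int.emod_nonneg y hD0.ne'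
    have hm1 := Int.emod_lt_of_pos y hD0
    have hdm := Int.mul_ediv_add_emod y D
    have hq : 0 ≤ y / D := Int.ediv_nonneg (by omega) hD0.le
    unfold T
    split_ifs with h1 h2
    · have : y / (D : ℤ) ≠ 0 := by
        intro h3
        rw [h1, h3] at hdm
        omega
      omega
    · apply Int.le_ediv_of_mul_le hD0
      nlinarith
    · apply Int.le_ediv_of_mul_le hD0
      have h3 : 0 ≤ (D : ℤ) * (y / D) := mul_nonneg hD0.le hq
      nlinarith
  have main : ∀ N : ℕ, N₀ ≤ N → ∀ (S : Finset ℤ) (g : ℤ → Fin D),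
      (∀ n : ℤ, 1 ≤ n → n ≤ N → n ∈ S) → (∀ n ∈ S, U D g n ∈ S) →
      (∀ n ∈ S, ∃ k : ℕ, (U D g)^[k] n < D) →
      noise D {ω | (∀ n ∈ S, ω n = g n) ∧ ¬ AllDescend D (U D ω)} ≤
        ENNReal.ofReal (Real.exp (-Real.exp (c * Real.sqrt (Real.log N)))) *
          noise D {ω | ∀ n ∈ S, ω n = g n} := by
    intro N hN S g hS1 hS2 hS3
    have h1 := h N hN S g {z | 1 ≤ z} (by
      intro z hz a
      have ha : (0 : ℤ) ≤ ((a : ℕ) : ℤ) := by positivity
      simp only [Set.mem_ofPred_eq] at hz ⊢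
      exact hpos _ (by omega)) (by
      intro z hz hzN
      simp only [Set.mem_ofPred_eq] at hz
      rw [abs_of_nonneg (by omega)] at hzN
      exact hS1 z hz hzN)
    have hnoise : noise D = Q205.RP.P D := rfl
    rw [hnoise]
    refine (measure_mono ?_).trans h1
    rintro ω ⟨hω, hlog⟩
    refine ⟨?_, hω⟩
    rintro ⟨K, hK⟩
    apply hlog
    intro n hn
    obtain ⟨j, _, hj2⟩ := hK n hn
    rw [hU] at hj2
    obtain ⟨k, hk⟩ := hS3 _ hj2
    have hit := Q205.RP.iter_eq (fun (x : ℤ) (c : Fin D) => T D (x + ((c : ℕ) : ℤ)))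
      ω g S hω (fun s hs => hS2 s hs) hj2 k
    rw [hU, hU] at hit
    refine ⟨k + j, ?_⟩
    rw [Function.iterate_add_apply, hit.1]
    exact hk
  refine ⟨⟨c, hc, N₀, main⟩, ?_⟩
  -- the decreasing choice
  set g : ℤ → Fin D := fun x => Q205.RP.res D (-x) with hg
  have hstep : ∀ x : ℤ, U D g x = (x + (-x) % D) / D := by
    intro x
    have h1 := Q205.RP.res_cast (d := D) (-x)
    unfold U
    rw [hg]
    simp only
    rw [h1]
    unfold T
    rw [if_pos]
    have h2 : (x + (-x) % D) % D = (x + (-x)) % D := by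
      rw [Int.add_emod, Int.emod_emod_of_dvd _ (dvd_refl (D : ℤ)), ← Int.add_emod]
    rw [h2]
    simp
  have hdec : ∀ x : ℤ, 2 ≤ x → 1 ≤ U D g x ∧ U D g x < x := by
    intro x hx
    have hm0 := Int.emod_nonneg (-x) hD0.ne'
    have hm1 := Int.emod_lt_of_pos (-x) hD0
    refine ⟨?_, ?_⟩
    · exact hpos _ (by omega)
    · rw [hstep]
      apply Int.ediv_lt_of_lt_mul hD0
      nlinarith
  have hone : ∀ x : ℤ, x = 1 → U D g x = 1 := by
    intro x hx
    rw [hstep, hx]
    have : ((-1 : ℤ)) % (D : ℤ) = D - 1 := by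
      rw [Int.neg_emod, if_neg]
      · rw [Int.emod_eq_of_lt (by norm_num) (by omega)]
        simp
      · intro h1
        have := Int.le_of_dvd one_pos h1
        omega
    rw [this, add_sub_cancel]
    exact Int.ediv_self hD0.ne'
  have hreach : ∀ b : ℕ, ∀ n : ℤ, 1 ≤ n → n.toNat = b → ∃ k : ℕ, (U D g)^[k] n < D := by
    intro b
    induction b using Nat.strong_induction_on with
    | _ b ih =>
      intro n hn hb
      rcases lt_or_ge n 2 with h1 | h1
      · exact ⟨0, by simp only [Function.iterate_zero, id_eq]; omega⟩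
      · obtain ⟨h2, h3⟩ := hdec n h1
        obtain ⟨k, hk⟩ := ih (U D g n).toNat (by omega) (U D g n) h2 rfl
        exact ⟨k + 1, by rw [Function.iterate_succ_apply]; exact hk⟩
  set S : Finset ℤ := Finset.Icc 1 (N₀ : ℤ) with hS
  have h1 := main N₀ le_rfl S g (fun n h1 h2 => Finset.mem_Icc.2 ⟨h1, h2⟩) (by
    intro n hn
    rw [hS, Finset.mem_Icc] at hn ⊢
    rcases lt_or_ge n 2 with h1 | h1
    · rw [hone n (by omega)]
      omega
    · obtain ⟨h2, h3⟩ := hdec n h1
      omega) (fun n hn => hreach _ n (Finset.mem_Icc.1 hn).1 rfl)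
  set A := noise D {ω | ∀ n ∈ S, ω n = g n} with hA
  have hApos : 0 < A := by
    rw [hA]
    have h2 : noise D {ω | ∀ n ∈ S, ω n = g n} = ((D : ENNReal)⁻¹) ^ S.card :=
      Q205.RP.cyl S g
    rw [h2]
    apply ENNReal.pow_pos
    rw [ENNReal.inv_pos]
    exact ENNReal.natCast_ne_top D
  have hAfin : A ≠ ⊤ := by
    have : IsProbabilityMeasure (noise D) := inferInstanceAs (IsProbabilityMeasure (Q205.RP.P D))
    exact measure_ne_top _ _
  by_contra hcon
  have hzero : noise D {ω | AllDescend D (U D ω)} = 0 := by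
    simpa using hcon
  have h2 : A ≤ noise D {ω | AllDescend D (U D ω)} +
      noise D {ω | (∀ n ∈ S, ω n = g n) ∧ ¬ AllDescend D (U D ω)} := by
    refine (measure_mono ?_).trans (measure_union_le _ _)
    intro ω hω
    by_cases hl : AllDescend D (U D ω)
    · exact Or.inl hl
    · exact Or.inr ⟨hω, hl⟩
  rw [hzero, zero_add] at h2
  have h3 : Real.exp (-Real.exp (c * Real.sqrt (Real.log N₀))) < 1 := by
    rw [Real.exp_lt_one_iff]
    linarith [Real.exp_pos (c * Real.sqrt (Real.log N₀))]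
  have h4 : ENNReal.ofReal (Real.exp (-Real.exp (c * Real.sqrt (Real.log N₀)))) < 1 := by
    rw [← ENNReal.ofReal_one]
    exact (ENNReal.ofReal_lt_ofReal_iff one_pos).2 h3
  have h5 : ENNReal.ofReal (Real.exp (-Real.exp (c * Real.sqrt (Real.log N₀)))) * A < 1 * A :=
    (ENNReal.mul_lt_mul_iff_left hApos.ne' hAfin).2 h4
  rw [one_mul] at h5
  exact absurd (h2.trans h1) (not_le.2 h5)

end Pool.Agent.Results.MP_5317dd_nt.DescentAfterVerification
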