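import Mathlib
import Pool.Agent.Q205.RP.Window2

/-!
# Wiggin's maps with noise on sparse scales only

`T D` is the shortened form of Wiggin's map, which performs the division by `D` that follows every
multiplication. Let `W` be a set of integers which contains, for arbitrarily large `X`, all `x` with
`X ≤ |x| ≤ X ^ (2 + ε)`. The map `U` is `T D` outside `W`, and `U x = T D (x + ω x)` on `W`,
with independent uniform `ω x` in `{0, …, D-1}`. Almost surely every orbit of `U` is bounded.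
-/

set_option autoImplicit false

open MeasureTheory Finset

namespace Pool.Agent.Results.MP_5317dd_nt.NoiseOnSparseScales

/-- The shortened Wiggin map: `x / D` if `D` divides `x`, otherwise `((D+1) x - j) / D` for
`x ≡ j`, `1 ≤ j ≤ D - 2`, and `((D+1) x + 1) / D` for `x ≡ -1 (mod D)`. -/
def T (D : ℕ) (x : ℤ) : ℤ :=
  if x % D = 0 then x / D
  else if x % D = D - 1 then ((D + 1) * x + 1) / D
  else ((D + 1) * x - x % D) / D

open Classical in
/-- The map perturbed at the places of `W`: there the argument `x` is replaced by `x + ω x`. -/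
noncomputable def U (D : ℕ) (W : Set ℤ) (ω : ℤ → Fin D) (x : ℤ) : ℤ :=
  if x ∈ W then T D (x + ((ω x : ℕ) : ℤ)) else T D x

/-- The law of independent uniform choices from `{0, …, D-1}`, one for each integer. -/
noncomputable def noise (D : ℕ) [NeZero D] : Measure (ℤ → Fin D) :=
  Measure.infinitePi (fun _ : ℤ => (PMF.uniformOfFintype (Fin D)).toMeasure)

/-- multipliers -/
def mult (D : ℕ) [NeZero D] (i : Fin D) : ℤ := if i = 0 then 1 else D + 1

/-- remainders -/
def rem (D : ℕ) [NeZero D] (i : Fin D) : ℤ :=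
  if i = 0 then 0 else if ((i : ℕ) : ℤ) = D - 1 then -1 else ((i : ℕ) : ℤ)

theorem T_eq (D : ℕ) [NeZero D] (x : ℤ) : T D x = Q205.RP.gc (mult D) (rem D) x := by
  have h := Q205.RP.res_cast (d := D) x
  unfold T Q205.RP.gc mult rem
  by_cases h0 : x % (D : ℤ) = 0
  · have h1 : Q205.RP.res D x = 0 := by
      apply Fin.ext
      rw [h0] at h
      simp only [Fin.val_zero]
      exact_mod_cast h
    rw [if_pos h0, if_pos h1, if_pos h1]
    simp
  · have h1 : Q205.RP.res D x ≠ 0 := by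
      intro h2
      rw [h2] at h
      simp only [Fin.val_zero, Nat.cast_zero] at h
      exact h0 h.symm
    rw [if_neg h0, if_neg h1, if_neg h1]
    by_cases h2 : x % (D : ℤ) = D - 1
    · rw [if_pos h2, if_pos (by rw [h]; exact h2)]
      ring_nf
    · rw [if_neg h2, if_neg (by rw [h]; exact h2), h]

theorem dvd_rem (D : ℕ) [NeZero D] (i : Fin D) :
    (D : ℤ) ∣ mult D i * ((i : ℕ) : ℤ) - rem D i := by
  unfold mult rem
  split_ifs with h1 h2
  · subst h1
    simp
  · rw [h2]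
    exact ⟨D, by ring⟩
  · exact ⟨((i : ℕ) : ℤ), by ring⟩

theorem mult_ne (D : ℕ) [NeZero D] (i : Fin D) : mult D i ≠ 0 := by
  unfold mult
  split_ifs
  · norm_num
  · positivity

/-- the exponents below `1` are admissible -/
theorem sum_lt (D : ℕ) [NeZero D] (hD : 2 ≤ D) (θ : ℝ) (h0 : 0 < θ) (h1 : θ < 1) :
    ∑ i, (|((mult D i : ℤ) : ℝ)| / D) ^ θ < D := by
  have hD0 : (0 : ℝ) < D := by exact_mod_cast (show 0 < D by omega)
  have hD2 : (2 : ℝ) ≤ D := by exact_mod_cast hD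
  have e1 : ∀ i : Fin D, (|((mult D i : ℤ) : ℝ)| / D) ^ θ =
      if i = 0 then ((1 : ℝ) / D) ^ θ else (((D : ℝ) + 1) / D) ^ θ := by
    intro i
    unfold mult
    split_ifs
    · simp
    · push_cast
      rw [abs_of_nonneg (by positivity : (0 : ℝ) ≤ (D : ℝ) + 1)]
  rw [Finset.sum_congr rfl (fun i _ => e1 i)]
  rw [← Finset.add_sum_erase univ _ (mem_univ (0 : Fin D)), if_pos rfl]
  rw [Finset.sum_congr rfl (fun i hi => if_neg (Finset.ne_of_mem_erase hi)), Finset.sum_const,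
    Finset.card_erase_of_mem (mem_univ _), card_univ, Fintype.card_fin, nsmul_eq_mul,
    Nat.cast_sub (by omega : 1 ≤ D), Nat.cast_one]
  have hsc := Real.strictConcaveOn_rpow h0 h1
  have h2 := hsc.2 (show (1 : ℝ) / D ∈ Set.Ici 0 from by
    simp only [Set.mem_Ici]; positivity) (show ((D : ℝ) + 1) / D ∈ Set.Ici 0 from by
    simp only [Set.mem_Ici]; positivity) (by
      intro h3
      have : (1 : ℝ) = D + 1 := by
        field_simp at h3
        linarith
      linarith) (show (0 : ℝ) < 1 / D by positivity)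
    (show (0 : ℝ) < (D - 1) / D by apply div_pos _ hD0; linarith) (by field_simp; ring)
  simp only [smul_eq_mul] at h2
  have h3 : (1 : ℝ) / D * (1 / D) + (D - 1) / D * ((D + 1) / D) = 1 := by
    field_simp
    ring
  rw [h3, Real.one_rpow] at h2
  have h4 : (1 : ℝ) / D * (1 / D) ^ θ + (D - 1) / D * (((D : ℝ) + 1) / D) ^ θ =
      ((1 / (D : ℝ)) ^ θ + ((D : ℝ) - 1) * (((D : ℝ) + 1) / D) ^ θ) / D := by
    field_simp
  rw [h4, div_lt_one hD0] at h2
  exact h2

theorem result (D : ℕ) [NeZero D] (hD : 2 ≤ D) (ε : ℝ) (hε : 0 < ε) (W : Set ℤ)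
    (hW : ∀ M : ℕ, ∃ X : ℕ, M ≤ X ∧ ∀ x : ℤ, (X : ℝ) ≤ |(x : ℝ)| →
      |(x : ℝ)| ≤ (X : ℝ) ^ (2 + ε) → x ∈ W) :
    ∀ᵐ ω ∂(noise D), ∀ n : ℤ, ∃ B : ℝ, ∀ k : ℕ, |(((U D W ω)^[k] n : ℤ) : ℝ)| ≤ B := by
  obtain ⟨θ, hθ1, hθ2⟩ : ∃ θ : ℝ, 1 / (1 + ε) < θ ∧ θ < 1 :=
    exists_between (by rw [div_lt_one (by linarith)]; linarith)
  have hθ0 : 0 < θ := lt_trans (by positivity) hθ1
  have hG : Q205.RP.Lin (fun (x : ℤ) (c : Fin D) => T D (x + ((c : ℕ) : ℤ))) D (mult D)
      (Q205.RP.RR (mult D) (rem D)) := by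
    simp only [T_eq]
    exact Q205.RP.lin_gc _ _ (dvd_rem D)
  have hβ : 1 + 1 / θ < 2 + ε := by
    have h1 : 1 / θ < 1 + ε := by
      rw [div_lt_iff₀ (by linarith)] at hθ1
      rw [div_lt_iff₀ hθ0]
      linarith
    linarith
  exact Q205.RP.window_ae' _ (mult_ne D) hG θ (2 + ε) hθ0 (sum_lt D hD θ hθ0 hθ2) hβ W hW

end Pool.Agent.Results.MP_5317dd_nt.NoiseOnSparseScales
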