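import Pool.Agent.Q74.BH.Asm

/-!
# The law of `T^m x` at unit scale in every interval

`T x = x / 2` for even `x` and `(3 x + 1) / 2` for odd `x`, on the integers (the case `D = 2` of the maps `F_D`, with one
halving per step); `c = 2 / log (4/3) = 6.95...`. Let `x` be a random integer of an ARBITRARY interval `[a, a + H)` and
`log H ≤ m ≤ (c - η) log H`. We find the joint law of the number `o` of odd terms among `x, ..., T^(m-1) x` and of the VALUE
`T^m x`, in total variation: choose a residue class `i` modulo `2^m` at random, let `o = o_i` be the number of its odd terms, and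
choose `z` uniformly among the integers of the window `[a 3^o / 2^m, (a + H) 3^o / 2^m)` which are congruent to `T^m i` modulo a
power `3^μ`, `μ ≤ √(log H)`. So after `m` steps everything about the position of `x` in the interval is lost, but for the
number of odd steps and the class modulo a small power of `3`; the window has length `H^(η/c + o(1))` only. For
`m ≤ log_2 H` there is little to prove (Terras); the range is optimal, as the windows have length `< 1` for `m ≥ (c + η) log H`.

Proof: iteration, in shrinking windows, of the fine scale mixing of Syracuse random variables (method of Tao; library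
`H499R2.NDMix`); upper bounds for the number of the `x` in an interval with `T^m x` in an arbitrary set `E_o`
(`S_Base`, `S_Step`, `S_Up`), applied to the sets where the true law exceeds the model.

Lemmas by helper14 (Step, TV), helper150 (Stage), helper154 (Up), helper176 (Base), helper195 (Mass), helper208 (Cls, Few),
helper223 (Real), helper241 (Mix3), helper285 (Bits), and from earlier projects helper158.
-/

set_option autoImplicit false

namespace Pool.Agent.Results.MP_5317dd_nt.UnitScaleLaw

open Finset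

/-- Wiggin's map `F_D` -/
def F (D x : ℤ) : ℤ :=
  if x % D = 0 then x / D else if x % D = D - 1 then (D + 1) * x + 1 else (D + 1) * x - x % D

/-- the 3x+1 map on the integers, with one halving per step -/
def T (x : ℤ) : ℤ := if x % 2 = 0 then x / 2 else (3 * x + 1) / 2

/-- the number of the odd terms among `x, T x, ..., T^(m-1) x` -/
def odds (m : ℕ) (x : ℤ) : ℕ := ((range m).filter (fun i => T^[i] x % 2 = 1)).card

/-- the constant `2 / log (4/3)` -/
noncomputable def c : ℝ := 2 / Real.log (4 / 3)

/-- The integers `z` of the window `[a 3^o / 2^m, (a + H) 3^o / 2^m)`, `o` the number of odd terms of `i`, with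
`z ≡ T^m i` modulo `3^μ`. -/
noncomputable def Cell (m μ H : ℕ) (a : ℤ) (i : ℕ) : Finset ℤ :=
  (Ico ⌈(a : ℝ) * 3 ^ odds m i / 2 ^ m⌉ ⌈((a : ℝ) + H) * 3 ^ odds m i / 2 ^ m⌉).filter
    (fun z => z % 3 ^ μ = T^[m] i % 3 ^ μ)

theorem T_eq : T = Pool.Agent.Q158.Pair.T := rfl

theorem odds_eq (t : ℕ) (x : ℤ) : odds t x = Pool.Agent.Q74.AR.oc t x := by
  rw [Pool.Agent.Q74.AR.oc_eq]
  rfl

theorem Cell_eq (m μ H : ℕ) (a : ℤ) (i : ℕ) : Cell m μ H a i = Pool.Agent.Q74.BH.Cell m μ H a i := by
  unfold Cell Pool.Agent.Q74.BH.Cell Pool.Agent.Q74.BH.Jw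
  rw [odds_eq, T_eq]

theorem result :
    -- `T` is the map `F_2` with one halving per step
    (∀ x : ℤ, T x = if x % 2 = 0 then F 2 x else F 2 (F 2 x)) ∧
    -- the law at unit scale
    (∀ η ε : ℝ, 0 < η → 0 < ε → ∃ H₀ : ℕ, ∀ H : ℕ, H₀ ≤ H → ∀ m : ℕ,
      Real.log H ≤ m → (m : ℝ) ≤ (c - η) * Real.log H → ∃ μ : ℕ, (μ : ℝ) ^ 2 ≤ Real.log H ∧
      ∀ (a : ℤ) (G : ℕ → ℤ → ℝ), (∀ o z, |G o z| ≤ 1) →
      |(∑ x ∈ Ico a (a + H), G (odds m x) (T^[m] x)) / H -
        (∑ i ∈ range (2 ^ m), (∑ z ∈ Cell m μ H a i, G (odds m i) z) / ((Cell m μ H a i).card : ℝ)) / 2 ^ m| ≤ ε) := by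
  refine ⟨fun x => ?_, ?_⟩
  · unfold T F
    rcases Int.emod_two_eq_zero_or_one x with h | h
    · rw [if_pos h, if_pos h, if_pos h]
    · have h1 : ¬ x % 2 = 0 := by omega
      have h2 : x % 2 = 2 - 1 := by omega
      have h3 : ((2 + 1) * x + 1) % 2 = 0 := by omega
      rw [if_neg h1, if_neg h1, if_neg h1, if_pos h2, if_pos h3]
      congr 1
  · intro η ε hη hε
    obtain ⟨H₀, h0⟩ := Pool.Agent.Q74.BH.tvf Pool.Agent.Q74.BH.tvX Pool.Agent.Q223.BH.lnn η ε hη hε
    refine ⟨H₀, fun H hH m hm1 hm2 => ?_⟩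
    obtain ⟨μ, hμ, h1⟩ := h0 H hH m hm1 hm2
    refine ⟨μ, hμ, fun a G hG => ?_⟩
    have h2 := h1 a G hG
    simp only [odds_eq, T_eq, Cell_eq]
    exact h2

end Pool.Agent.Results.MP_5317dd_nt.UnitScaleLaw
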